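import Pool.Agent.TH250.Z3.Stm

set_option autoImplicit false
set_option linter.all false

/-!
# Irrationality exponent of `ζ(3)`, second design: the linear form as a shifted sum
-/

open Polynomial Pool.Agent.H337R2

namespace Pool.Agent.TH902.Z3B1

open Pool.Agent.TH817.Z3 Pool.Agent.TH250.Z3

noncomputable section

/-- the shifted numerator -/
def Sh (n : ℕ) (P : ℚ[X]) : ℚ[X] := P.comp (X - C (n : ℚ))

/-- the shifted poles -/
abbrev sS (n : ℕ) : Finset ℕ := Finset.Icc (7 * n / 2 + 1 - LL n) (17 * n / 2 - LL n)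

/-- the shifted multiplicities -/
abbrev mS (n : ℕ) : ℕ → ℕ := fun k => mF n (k + LL n)

theorem LL_ge (n : ℕ) : n ≤ LL n := by
  unfold LL
  omega

theorem LL_le (n : ℕ) : 3 * LL n ≤ 4 * n := by
  unfold LL
  omega

theorem TS_shift (n : ℕ) (P : ℚ[X]) (c : ℚ) : TS c (Sh n P) = TS (c - n) P := by
  unfold TS Sh
  simp only [RingHom.coe_comp, Function.comp_apply]
  congr 1
  show Polynomial.taylor c (P.comp (X - C (n : ℚ))) = Polynomial.taylor (c - n) P
  rw [Polynomial.taylor_apply, Polynomial.taylor_apply, Polynomial.comp_assoc]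
  congr 1
  rw [Polynomial.sub_comp, Polynomial.X_comp, Polynomial.C_comp, Polynomial.C_sub]
  ring

theorem image_erase (n k : ℕ) (hk : k ∈ sS n) :
    ((sS n).erase k).image (fun m => m + LL n) = (sF n).erase (k + LL n) := by
  have hL := LL_le n
  ext m
  simp only [Finset.mem_image, Finset.mem_erase, Finset.mem_Icc, sF, sS]
  constructor
  · rintro ⟨a, ⟨h1, h2, h3⟩, rfl⟩
    refine ⟨?_, ?_, ?_⟩ <;> omega
  · rintro ⟨h1, h2, h3⟩
    refine ⟨m - LL n, ⟨?_, ?_, ?_⟩, ?_⟩ <;> omega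

theorem VV_shift (n k : ℕ) (hk : k ∈ sS n) :
    VV ((sS n).erase k) (mS n) (-(k : ℚ)) =
      VV ((sF n).erase (k + LL n)) (mF n) (-((k + LL n : ℕ) : ℚ)) := by
  unfold VV
  rw [← image_erase n k hk, Finset.prod_image (fun a _ b _ h => by simpa using h)]
  apply Finset.prod_congr rfl
  intro m _
  congr 2
  push_cast
  ring

theorem pa_shift (n k i : ℕ) (P : ℚ[X]) (hk : k ∈ sS n) :
    pa (sS n) (mS n) (Sh (LL n) P) k i = pa (sF n) (mF n) P (k + LL n) i := by
  unfold pa pfc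
  rw [VV_shift n k hk, TS_shift]
  have : -(k : ℚ) - (LL n : ℕ) = -((k + LL n : ℕ) : ℚ) := by
    push_cast
    ring
  rw [this]

theorem sum_shift (n : ℕ) (f g : ℕ → ℚ) (h : ∀ k ∈ sS n, f k = g (k + LL n)) :
    ∑ k ∈ sS n, f k = ∑ k ∈ sF n, g k := by
  have hL := LL_le n
  have himg : (sS n).image (fun m => m + LL n) = sF n := by
    ext m
    simp only [Finset.mem_image, Finset.mem_Icc, sF, sS]
    constructor
    · rintro ⟨a, ⟨h2, h3⟩, rfl⟩
      constructor <;> omega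
    · rintro ⟨h2, h3⟩
      refine ⟨m - LL n, ⟨?_, ?_⟩, ?_⟩ <;> omega
  rw [← himg, Finset.sum_image (fun a _ b _ h => by simpa using h)]
  exact Finset.sum_congr rfl h

theorem PF_natDegree (n : ℕ) : (PF n).natDegree ≤ (3 * n - n / 2) + (7 * n / 2 - n) := by
  unfold PF
  refine (Polynomial.natDegree_C_mul_le _ _).trans ?_
  refine Polynomial.natDegree_mul_le.trans ?_
  have h : ∀ a b : ℕ, (∏ j ∈ Finset.Icc (a + 1) b, (X + C (j : ℚ))).natDegree ≤ b - a := by
    intro a b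
    refine (Polynomial.natDegree_prod_le _ _).trans ?_
    refine (Finset.sum_le_card_nsmul _ _ 1 fun m _ => ?_).trans ?_
    · rw [Polynomial.natDegree_X_add_C]
    · rw [Nat.card_Icc, smul_eq_mul]
      omega
  have h1 := h (n / 2) (3 * n)
  have h2 := h n (7 * n / 2)
  omega

theorem mF_sum (n : ℕ) : ∑ k ∈ sF n, mF n k = (8 * n - 7 * n / 2) + (17 * n / 2 - 4 * n) := by
  unfold mF
  rw [Finset.sum_add_distrib]
  congr 1
  · rw [← Finset.card_filter]
    have : (sF n).filter (fun k => k ≤ 8 * n) = Finset.Icc (7 * n / 2 + 1) (8 * n) := by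
      ext k
      simp only [sF, Finset.mem_filter, Finset.mem_Icc]
      omega
    rw [this, Nat.card_Icc]
    omega
  · rw [← Finset.card_filter]
    have : (sF n).filter (fun k => 4 * n < k) = Finset.Icc (4 * n + 1) (17 * n / 2) := by
      ext k
      simp only [sF, Finset.mem_filter, Finset.mem_Icc]
      omega
    rw [this, Nat.card_Icc]
    omega

theorem QQ_deg' (n : ℕ) : (QQ (sF n) (mF n)).natDegree = (8 * n - 7 * n / 2) + (17 * n / 2 - 4 * n) := by
  rw [QQ_natDegree, mF_sum]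

theorem QQ_deg (n : ℕ) : (QQ (sS n) (mS n)).natDegree = (8 * n - 7 * n / 2) + (17 * n / 2 - 4 * n) := by
  rw [QQ_natDegree, ← mF_sum]
  have hL := LL_le n
  have himg : (sS n).image (fun m => m + LL n) = sF n := by
    ext m
    simp only [Finset.mem_image, Finset.mem_Icc, sF, sS]
    constructor
    · rintro ⟨a, ⟨h2, h3⟩, rfl⟩
      constructor <;> omega
    · rintro ⟨h2, h3⟩
      refine ⟨m - LL n, ⟨?_, ?_⟩, ?_⟩ <;> omega
  rw [← himg, Finset.sum_image (fun a _ b _ h => by simpa using h)]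

theorem natDegree_bound {n : ℕ} (hn : 1 ≤ n) (Q : ℚ[X]) (hQ : Q.natDegree ≤ 4 * n - 2) :
    (PF n * Q).natDegree + 2 ≤ (8 * n - 7 * n / 2) + (17 * n / 2 - 4 * n) := by
  have h1 := PF_natDegree n
  have h2 : (PF n * Q).natDegree ≤ (PF n).natDegree + Q.natDegree := Polynomial.natDegree_mul_le
  rcases Nat.even_or_odd' n with ⟨k, hk | hk⟩
  · have a1 : n / 2 = k := by omega
    have a2 : 7 * n / 2 = 7 * k := by omega
    have a3 : 17 * n / 2 = 17 * k := by omega
    omega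
  · have a1 : n / 2 = k := by omega
    have a2 : 7 * n / 2 = 7 * k + 3 := by omega
    have a3 : 17 * n / 2 = 17 * k + 8 := by omega
    omega

theorem dvd_shift {n : ℕ} (Q : ℚ[X]) {m : ℕ} (hm : m ∈ Finset.Icc 1 (3 * n - LL n)) :
    (X + C (m : ℚ)) ^ (1 + 1) ∣ Sh (LL n) (PF n * Q) := by
  have hL0 := LL_ge n
  have hL := LL_le n
  have h1 : (X + C ((m + LL n : ℕ) : ℚ)) ^ (1 + 1) ∣ PF n * Q := by
    unfold PF
    rw [Finset.mem_Icc] at hm
    have a1 : (X + C ((m + LL n : ℕ) : ℚ)) ∣ ∏ j ∈ Finset.Icc (n / 2 + 1) (3 * n), (X + C (j : ℚ)) :=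
      Finset.dvd_prod_of_mem (fun j : ℕ => (X + C (j : ℚ))) (by rw [Finset.mem_Icc]; omega)
    have a2 : (X + C ((m + LL n : ℕ) : ℚ)) ∣ ∏ j ∈ Finset.Icc (n + 1) (7 * n / 2), (X + C (j : ℚ)) :=
      Finset.dvd_prod_of_mem (fun j : ℕ => (X + C (j : ℚ))) (by rw [Finset.mem_Icc]; omega)
    rw [show (1 + 1 : ℕ) = 2 from rfl, pow_two]
    exact ((mul_dvd_mul a1 a2).mul_left _).mul_right _
  obtain ⟨R, hR⟩ := h1
  refine ⟨R.comp (X - C ((LL n : ℕ) : ℚ)), ?_⟩
  unfold Sh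
  rw [hR, Polynomial.mul_comp, Polynomial.pow_comp, Polynomial.add_comp, Polynomial.X_comp, Polynomial.C_comp]
  congr 2
  push_cast
  rw [Polynomial.C_add]
  ring

theorem B1 : StB1 := by
  intro n hn x Q hQ
  have hL0 := LL_ge n
  have hL := LL_le n
  have hnd := natDegree_bound hn Q hQ
  set P := PF n * Q with hP
  have hdegS : (Sh (LL n) P).natDegree ≤ P.natDegree := by
    unfold Sh
    refine Polynomial.natDegree_comp_le.trans ?_
    rw [Polynomial.natDegree_X_sub_C, mul_one]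
  have hdeg' : (Sh (LL n) P).degree < (QQ (sS n) (mS n)).degree := by
    rw [Polynomial.degree_eq_natDegree (QQ_monic _ _).ne_zero, QQ_deg]
    exact lt_of_le_of_lt Polynomial.degree_le_natDegree (by exact_mod_cast (by omega))
  have h := linear_form' (sS n) (mS n) (Sh (LL n) P) hdeg' 1 (3 * n - LL n) 2 le_rfl
    (fun k hk => by have := (Finset.mem_Icc.1 hk).1; omega)
    (fun k _ => by
      show mF n (k + LL n) ≤ 2
      unfold mF
      split_ifs <;> omega)
    (fun m hm => dvd_shift Q hm)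
  refine ⟨_, h, ?_⟩
  have hc : ∑ k ∈ sF n, pa (sF n) (mF n) P k 1 = 0 := by
    refine residue_sum (sF n) (mF n) P ?_
    rw [QQ_deg']
    omega
  have e1 : ∀ i : ℕ, ∑ k ∈ sS n, pa (sS n) (mS n) (Sh (LL n) P) k i =
      ∑ k ∈ sF n, pa (sF n) (mF n) P k i := by
    intro i
    exact sum_shift n _ (fun k => pa (sF n) (mF n) P k i) (fun k hk => pa_shift n k i P hk)
  have e2 : ∀ i : ℕ, ∑ k ∈ sS n, pa (sS n) (mS n) (Sh (LL n) P) k i *
      hs (i + 1) (k - (3 * n - LL n) - 1) = ∑ k ∈ sF n, pa (sF n) (mF n) P k i * hs (i + 1) (k - 3 * n - 1) := by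
    intro i
    refine sum_shift n _ (fun k => pa (sF n) (mF n) P k i * hs (i + 1) (k - 3 * n - 1)) (fun k hk => ?_)
    rw [pa_shift n k i P hk]
    have : k + LL n - 3 * n - 1 = k - (3 * n - LL n) - 1 := by omega
    rw [this]
  have hI : Finset.Icc 1 2 = ({1, 2} : Finset ℕ) := by decide
  rw [hI, Finset.sum_pair (by norm_num)]
  rw [e1, e1, e2, e2, hc]
  rw [NL_apply, ← hP]
  unfold xf h3 rho
  have hsum : ∑ k ∈ sF n, (2 * pa (sF n) (mF n) P k 2 * hs 3 (k - 3 * n - 1) +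
        pa (sF n) (mF n) P k 1 * hs 2 (k - 3 * n - 1)) =
      2 * ∑ k ∈ sF n, pa (sF n) (mF n) P k 2 * hs (2 + 1) (k - 3 * n - 1) +
        ∑ k ∈ sF n, pa (sF n) (mF n) P k 1 * hs (1 + 1) (k - 3 * n - 1) := by
    rw [Finset.mul_sum, ← Finset.sum_add_distrib]
    apply Finset.sum_congr rfl
    intro k _
    ring
  rw [hsum]
  have c1 : Nat.choose (1 - 1 + 1) (1 - 1) = 1 := by decide
  have c2 : Nat.choose (2 - 1 + 1) (2 - 1) = 2 := by decide
  rw [c1, c2]
  generalize (∑ k ∈ sF n, pa (sF n) (mF n) P k 2 * hs (2 + 1) (k - 3 * n - 1)) = A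
  generalize (∑ k ∈ sF n, pa (sF n) (mF n) P k 1 * hs (1 + 1) (k - 3 * n - 1)) = B
  generalize (∑ k ∈ sF n, pa (sF n) (mF n) P k 2) = R
  show _ = -(_ + ((((-1) ^ 1 * ((2 : ℕ) : ℚ)) : ℚ) : ℝ) * ((R : ℝ) * zr 3 - (A : ℝ))) + _
  push_cast
  ring

theorem main : StB1 := B1

end

end Pool.Agent.TH902.Z3B1
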